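import Pool.Agent.Helper92.Asp.Tuples

/-!
# Average shadowing gives uniformly positive entropy of all orders on the measure center

The definitions of `ASP`, `AASP`, `AlmostSpec`, `measureCenter`, `TopMixing` are those of the library
module `Pool.Graph.R_seed8.Results.MP_090ff9_an.AvgShadowingEntropy`; `joinNumber f A n` is the least
number of members of the join `A ∨ f⁻¹ A ∨ ... ∨ f⁻⁽ⁿ⁻¹⁾ A` of a cover `A` which cover `X`, so that
the entropy of the cover `A` is the limit of `(1 / n) log (joinNumber f A n)`.
-/

open Set Filter Topology MeasureTheory
open Pool.Agent.Results.MP_090ff9_an.AvgShadowingEntropy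

namespace Pool.Agent.Results.MP_090ff9_an.AllOrders

open Pool.Agent.Helper92.Asp

/-- Let `f` be a continuous map of a compact metric space `X` with one of the average shadowing
property, the asymptotic average shadowing property and the almost specification property. The
measure center is arbitrary, `f` need not be surjective.
(1) Every finite cover `A` of `X` such that no closure `closure (A i)` contains the measure center
has positive entropy. (So every tuple of points of the measure center, not all equal, is an entropy
tuple.)
(2) If the measure center has at least two points, then the topological entropy of `f` is positive.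
(3) If the measure center is `X`, then every finite cover of `X` by sets that are not dense has
positive entropy (uniformly positive entropy of all orders), and `f` is topologically mixing or has
positive topological entropy. -/
theorem result {X : Type*} [MetricSpace X] [CompactSpace X] [MeasurableSpace X] [BorelSpace X]
    (f : X → X) (hf : Continuous f) (hP : ASP f ∨ AASP f ∨ AlmostSpec f) :
    (∀ (ι : Type) [Finite ι] [Nonempty ι] (A : ι → Set X), (∀ x, ∃ i, x ∈ A i) →
      (∀ i, ∃ a ∈ measureCenter f, a ∉ closure (A i)) →
      ∃ h > 0, ∀ᶠ n : ℕ in atTop, Real.exp (h * n) ≤ joinNumber f A n) ∧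
    ((measureCenter f).Nontrivial → 0 < Dynamics.coverEntropy f (Set.univ : Set X)) ∧
    (measureCenter f = Set.univ →
      (∀ (ι : Type) [Finite ι] [Nonempty ι] (A : ι → Set X), (∀ x, ∃ i, x ∈ A i) →
        (∀ i, ¬ Dense (A i)) →
        ∃ h > 0, ∀ᶠ n : ℕ in atTop, Real.exp (h * n) ≤ joinNumber f A n) ∧
      (TopMixing f ∨ 0 < Dynamics.coverEntropy f (Set.univ : Set X))) := by
  refine ⟨fun ι _ hne A hcov hA => join_growth hne f hf hP A hcov hA,
    fun hc => entropy_of_center f hf hP hc, fun hmc => ⟨fun ι _ hne A hcov hA => ?_, ?_⟩⟩
  · refine join_growth hne f hf hP A hcov fun i => ?_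
    have h1 : closure (A i) ≠ Set.univ := fun h => hA i (dense_iff_closure_eq.2 h)
    obtain ⟨a, ha⟩ := (Set.ne_univ_iff_exists_notMem _).1 h1
    exact ⟨a, by rw [hmc]; trivial, ha⟩
  · exact (AvgShadowingEntropy.result f hf hP hmc).1

end Pool.Agent.Results.MP_090ff9_an.AllOrders
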